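import Mathlib
import Pool.Agent.N889.SN.Core
import Pool.Agent.N889.SN.Diag
import Pool.Agent.N889.SN.Fin
import Pool.Agent.Results.MP_8fded1_nt.EllipticPointIsHarmless

set_option autoImplicit false

/-!
# MP_8fded1_nt: the values high in the cusp control the values on compact sets

Let `Y` be a positive number, as large as one likes.  There is one `Y₂` such that the box
`|Re w| ≤ 1/2`, `Y ≤ Im w ≤ Y₂` has the following property: for every compact subset `Ω` of the upper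
half-plane there is `C` such that for every Hecke-Maass cusp form `U` for the full modular group every
value of `U` on `Ω` is at most `C` times a value of `U` on the box.  So in the sup-norm problem, for
every exponent, the compact sets may be replaced by one box in the neighbourhood `Im z ≥ Y` of the
cusp, whose area `1 / Y` is arbitrarily small, and the conjecture for all compact sets is equivalent to
the bound by `T ^ ε` on boxes which go to the cusp with `T`.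
-/

namespace Pool.Agent.Results.MP_8fded1_nt.CuspControlsCompactSets

open Filter
open Pool.Agent.Results.MP_8fded1_nt.EllipticPointIsHarmless (IsHeckeMaass SupNormBound invariance)

/-- the box `|Re z| ≤ 1/2`, `Y ≤ Im z ≤ Y₂` -/
def Box (Y Y₂ : ℝ) : Set ℂ := {z : ℂ | |z.re| ≤ 1 / 2 ∧ Y ≤ z.im ∧ z.im ≤ Y₂}

lemma isCompact_box (Y Y₂ : ℝ) : IsCompact (Box Y Y₂) := by
  have hc : IsCompact (Complex.equivRealProdCLM.symm '' (Set.Icc (-(1 / 2) : ℝ) (1 / 2) ×ˢ Set.Icc Y Y₂)) :=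
    (isCompact_Icc.prod isCompact_Icc).image Complex.equivRealProdCLM.symm.continuous
  have e : Complex.equivRealProdCLM.symm '' (Set.Icc (-(1 / 2) : ℝ) (1 / 2) ×ˢ Set.Icc Y Y₂) = Box Y Y₂ := by
    ext z
    constructor
    · rintro ⟨⟨a, b⟩, ⟨ha, hb⟩, rfl⟩
      exact ⟨abs_le.2 ⟨ha.1, ha.2⟩, hb.1, hb.2⟩
    · rintro ⟨h1, h2, h3⟩
      exact ⟨(z.re, z.im), ⟨⟨(abs_le.1 h1).1, (abs_le.1 h1).2⟩, ⟨h2, h3⟩⟩, rfl⟩
  rwa [e] at hc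

lemma box_pos {Y Y₂ : ℝ} (hY : 0 < Y) : Box Y Y₂ ⊆ {z : ℂ | 0 < z.im} := fun _ hz => lt_of_lt_of_le hY hz.2.1

lemma move {U : ℂ → ℂ} {K : ℕ → ℝ} (hU : Pool.Agent.N889.SN.Per K U) {w : ℂ} (hw : 0 < w.im) :
    ∃ v : ℂ, U v = U w ∧ v.im = w.im ∧ |v.re| ≤ 1 / 2 := by
  refine ⟨w + ((-round w.re : ℤ) : ℂ), hU.int _ hw, by simp, ?_⟩
  have e : (w + ((-round w.re : ℤ) : ℂ)).re = w.re - round w.re := by
    simp [sub_eq_add_neg]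
  rw [e]
  exact abs_sub_round w.re

lemma toCore (Ω : Set ℂ) (hΩ : IsCompact Ω) (hΩ' : Ω ⊆ {z : ℂ | 0 < z.im}) :
    ∃ C : ℝ, 0 < C ∧ ∀ (U : ℂ → ℂ) (T : ℝ), IsHeckeMaass U T → ∀ z ∈ Ω,
      ∃ w ∈ Box (1 / 2) (5 / 2), ‖U z‖ ≤ C * ‖U w‖ := by
  obtain ⟨C, hC, h⟩ := Pool.Agent.N889.SN.toCore Pool.Agent.N889.SN.KK Pool.Agent.N889.SN.KK_nonneg Ω hΩ hΩ'
  refine ⟨C, hC, fun U T hU z hz => ?_⟩
  obtain ⟨w, hw, h1, h2, h3⟩ := h U (Pool.Agent.N889.SN.isPer hU) (fun g z => invariance hU.2.1 g z) z hz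
  exact ⟨w, ⟨h1, h2, h3⟩, hw⟩

lemma toCusp (Y : ℝ) : ∃ C Y₂ : ℝ, 0 < C ∧ Y ≤ Y₂ ∧ ∀ (U : ℂ → ℂ) (T : ℝ), IsHeckeMaass U T →
    ∀ z ∈ Box (1 / 2) (5 / 2), ∃ w ∈ Box Y Y₂, ‖U z‖ ≤ C * ‖U w‖ := by
  obtain ⟨C, Y₂, hC, h⟩ := Pool.Agent.N889.SN.cusp Pool.Agent.N889.SN.KK Pool.Agent.N889.SN.KK_nonneg
    (max Y 1) _ (isCompact_box (1 / 2) (5 / 2)) (box_pos (by norm_num))
  refine ⟨C, max Y Y₂, hC, le_max_left _ _, fun U T hU z hz => ?_⟩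
  have hP := Pool.Agent.N889.SN.isPer hU
  obtain ⟨w, hw, h2, h3⟩ := h U hP (fun z hz => (hU.2.1 z hz).2) z hz
  obtain ⟨v, hv, hv1, hv2⟩ := move hP (lt_of_lt_of_le one_pos ((le_max_right _ _).trans h2))
  rw [← hv] at hw
  rw [← hv1] at h2 h3
  exact ⟨v, ⟨hv2, (le_max_left _ _).trans h2, h3.trans (le_max_right _ _)⟩, hw⟩

theorem pointwise (Y : ℝ) : ∃ Y₂ : ℝ, ∀ Ω : Set ℂ, IsCompact Ω → Ω ⊆ {z : ℂ | 0 < z.im} →
    ∃ C : ℝ, 0 < C ∧ ∀ (U : ℂ → ℂ) (T : ℝ), IsHeckeMaass U T → ∀ z ∈ Ω,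
      ∃ w ∈ Box Y Y₂, ‖U z‖ ≤ C * ‖U w‖ := by
  obtain ⟨C, Y₂, hC, -, h⟩ := toCusp Y
  refine ⟨Y₂, fun Ω hΩ hΩ' => ?_⟩
  obtain ⟨C', hC', h'⟩ := toCore Ω hΩ hΩ'
  refine ⟨C' * C, by positivity, fun U T hU z hz => ?_⟩
  obtain ⟨w, hw, h1⟩ := h' U T hU z hz
  obtain ⟨v, hv, h2⟩ := h U T hU w hw
  refine ⟨v, hv, ?_⟩
  calc ‖U z‖ ≤ C' * ‖U w‖ := h1
    _ ≤ C' * (C * ‖U v‖) := by gcongr
    _ = _ := by ring

theorem escaping (G : ℝ → ℝ) (hG : Tendsto G atTop atTop) :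
    ∃ Y W : ℝ → ℝ, Tendsto Y atTop atTop ∧ (∀ T, 1 ≤ Y T ∧ Y T ≤ W T) ∧ (∀ᶠ T in atTop, W T ≤ G T) ∧
      ((∀ ε : ℝ, 0 < ε → ∀ Ω : Set ℂ, IsCompact Ω → Ω ⊆ {z : ℂ | 0 < z.im} → SupNormBound Ω ε) ↔
        ∀ ε : ℝ, 0 < ε → ∃ C : ℝ, ∀ (U : ℂ → ℂ) (T : ℝ), 1 ≤ T → IsHeckeMaass U T →
          ∀ z ∈ Box (Y T) (W T), ‖U z‖ ≤ C * T ^ ε) := by
  choose C Y₂ hC hY₂ h using fun k : ℕ => toCusp (k : ℝ)
  have hD : ∀ k : ℕ, ∃ D : ℝ, 0 < D ∧ ∀ (U : ℂ → ℂ) (T : ℝ), IsHeckeMaass U T → 1 ≤ k →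
      ∀ z ∈ Box k (Y₂ k), ∃ w ∈ Box (1 / 2) (5 / 2), ‖U z‖ ≤ D * ‖U w‖ := by
    intro k
    rcases Nat.lt_or_ge k 1 with hk | hk
    · exact ⟨1, one_pos, fun U T hU h => by omega⟩
    · have hk' : (0 : ℝ) < k := by exact_mod_cast hk
      obtain ⟨D, hD, h⟩ := toCore _ (isCompact_box (k : ℝ) (Y₂ k)) (box_pos hk')
      exact ⟨D, hD, fun U T hU _ => h U T hU⟩
  choose D hD hD' using hD
  obtain ⟨κ, hκ, hκ1, hκG, hκε⟩ := Pool.Agent.N889.SN.diag (fun k => C k + D k) Y₂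
    (fun k => add_pos (hC k) (hD k)) G hG
  refine ⟨fun T => κ T, fun T => Y₂ (κ T), tendsto_natCast_atTop_atTop.comp hκ, fun T => ⟨?_, hY₂ _⟩, hκG, ?_, ?_⟩
  · show (1 : ℝ) ≤ (κ T : ℝ)
    exact_mod_cast hκ1 T
  · intro hQ ε hε
    obtain ⟨B, hB, hB'⟩ := hκε (ε / 2) (by positivity)
    obtain ⟨A, hA⟩ := hQ (ε / 2) (by positivity) _ (isCompact_box (1 / 2) (5 / 2)) (box_pos (by norm_num))
    refine ⟨B * |A|, fun U T hT hU z hz => ?_⟩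
    have hT0 : 0 < T := by linarith
    have hTε : 0 < T ^ (ε / 2) := Real.rpow_pos_of_pos hT0 _
    obtain ⟨w, hw, h1⟩ := hD' (κ T) U T hU (hκ1 T) z hz
    have h2 := hA U T hT hU w hw
    have h3 := hB' T hT
    have h4 : D (κ T) ≤ B * T ^ (ε / 2) := by
      have := (hC (κ T)).le
      linarith
    calc ‖U z‖ ≤ D (κ T) * ‖U w‖ := h1
      _ ≤ (B * T ^ (ε / 2)) * (|A| * T ^ (ε / 2)) := by
        gcongr
        exact h2.trans (by gcongr; exact le_abs_self A)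
      _ = B * |A| * (T ^ (ε / 2) * T ^ (ε / 2)) := by ring
      _ = B * |A| * T ^ ε := by rw [← Real.rpow_add hT0]; congr 2; ring
  · intro hQ ε hε Ω hΩ hΩ'
    obtain ⟨B, hB, hB'⟩ := hκε (ε / 2) (by positivity)
    obtain ⟨A, hA⟩ := hQ (ε / 2) (by positivity)
    obtain ⟨C₀, hC₀, h₀⟩ := toCore Ω hΩ hΩ'
    refine ⟨C₀ * B * |A|, fun U T hT hU z hz => ?_⟩
    have hT0 : 0 < T := by linarith
    have hTε : 0 < T ^ (ε / 2) := Real.rpow_pos_of_pos hT0 _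
    obtain ⟨v, hv, h0⟩ := h₀ U T hU z hz
    obtain ⟨w, hw, h1⟩ := h (κ T) U T hU v hv
    have h2 := hA U T hT hU w hw
    have h3 := hB' T hT
    have h4 : C (κ T) ≤ B * T ^ (ε / 2) := by
      have := (hD (κ T)).le
      linarith
    calc ‖U z‖ ≤ C₀ * ‖U v‖ := h0
      _ ≤ C₀ * (C (κ T) * ‖U w‖) := by gcongr
      _ ≤ C₀ * ((B * T ^ (ε / 2)) * (|A| * T ^ (ε / 2))) := by
        gcongr
        exact h2.trans (by gcongr; exact le_abs_self A)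
      _ = C₀ * B * |A| * (T ^ (ε / 2) * T ^ (ε / 2)) := by ring
      _ = C₀ * B * |A| * T ^ ε := by rw [← Real.rpow_add hT0]; congr 2; ring

/-- **Main result.**
(1) For every `Y > 0` there is `Y₂` such that the box `B` given by `|Re w| ≤ 1/2`, `Y ≤ Im w ≤ Y₂` has
the following properties.  For every compact `Ω` in the upper half-plane there is `C` such that for
every Hecke-Maass cusp form `U` and every `z` in `Ω` there is `w` in `B` with `|U z| ≤ C |U w|`.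
Hence, for every `s`, the sup-norm bound with exponent `s` holds on all compact subsets of the upper
half-plane if and only if it holds on `B`.
(2) For every function `G` tending to infinity there are functions `Y`, `W` with `Y T → ∞`,
`1 ≤ Y T ≤ W T` for all `T` and `W T ≤ G T` for all large `T`, such that the sup-norm conjecture (all compact
sets, all `ε > 0`) is equivalent to the bounds `|U z| ≤ C_ε T ^ ε` for `z` in the box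
`|Re z| ≤ 1/2`, `Y T ≤ Im z ≤ W T`, which goes to the cusp with `T`. -/
theorem result :
    (∀ Y : ℝ, 0 < Y → ∃ Y₂ : ℝ,
      (∀ Ω : Set ℂ, IsCompact Ω → Ω ⊆ {z : ℂ | 0 < z.im} →
        ∃ C : ℝ, 0 < C ∧ ∀ (U : ℂ → ℂ) (T : ℝ), IsHeckeMaass U T → ∀ z ∈ Ω,
          ∃ w ∈ Box Y Y₂, ‖U z‖ ≤ C * ‖U w‖) ∧
      ∀ s : ℝ, (∀ Ω : Set ℂ, IsCompact Ω → Ω ⊆ {z : ℂ | 0 < z.im} → SupNormBound Ω s) ↔
        SupNormBound (Box Y Y₂) s) ∧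
    (∀ G : ℝ → ℝ, Tendsto G atTop atTop →
      ∃ Y W : ℝ → ℝ, Tendsto Y atTop atTop ∧ (∀ T, 1 ≤ Y T ∧ Y T ≤ W T) ∧ (∀ᶠ T in atTop, W T ≤ G T) ∧
        ((∀ ε : ℝ, 0 < ε → ∀ Ω : Set ℂ, IsCompact Ω → Ω ⊆ {z : ℂ | 0 < z.im} → SupNormBound Ω ε) ↔
          ∀ ε : ℝ, 0 < ε → ∃ C : ℝ, ∀ (U : ℂ → ℂ) (T : ℝ), 1 ≤ T → IsHeckeMaass U T →
            ∀ z ∈ Box (Y T) (W T), ‖U z‖ ≤ C * T ^ ε)) := by
  refine ⟨fun Y hY => ?_, escaping⟩
  obtain ⟨Y₂, h1⟩ := pointwise Y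
  refine ⟨Y₂, h1, fun s => ⟨fun h => h _ (isCompact_box Y Y₂) (box_pos hY), fun h Ω hΩ hΩ' => ?_⟩⟩
  obtain ⟨C, hC, h2⟩ := h1 Ω hΩ hΩ'
  obtain ⟨B, hB⟩ := h
  refine ⟨C * B, fun U T hT hU z hz => ?_⟩
  obtain ⟨w, hw, h3⟩ := h2 U T hU z hz
  calc ‖U z‖ ≤ C * ‖U w‖ := h3
    _ ≤ C * (B * T ^ s) := by
      gcongr
      exact hB U T hT hU w hw
    _ = C * B * T ^ s := by ring

end Pool.Agent.Results.MP_8fded1_nt.CuspControlsCompactSets
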