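import Pool.Agent.N661.SN.Generic

/-!
# Large values of Hecke-Maass forms without short Hecke returns (MP_8fded1_nt)

Let `U` be a Hecke-Maass cusp form for `SL_2(Z)`, `z = x + iy` with `|z| ≤ R` and `y ≥ 1/R`, `N ≥ 1`.
There is a point `w = (a z + b) / d` in the Hecke orbit of `z`, with `a d ≤ 2^10 N^3`, such that
`|U z| ≤ 2^30 N^9 |U w|`, and such that no nonscalar integral matrix of determinant at most `N` maps
`w` to a point at hyperbolic distance less than `1 / (2^15 R^2 N^4)` from `w`.

With `N = T^η`: up to factors `T^(9 η)`, all large values of `U` are seen at points without Hecke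
returns of determinant `≤ T^η` at distance `≤ T^(-4 η)` (roughly). So for the conjecture
`|U z| ≤ C T^ε` on compact sets one may discard all points which are closer than `T^(-5 η)`, say, to a
CM point of discriminant `≤ T^η`: these points, which have the most returns in the Iwaniec-Sarnak
amplification argument, and at which large values occur for other arithmetic manifolds, are no
obstacle. The bounds do not depend on `T`.

Proof. If `z` has a nonscalar near return of determinant at most `N`, let `v` be the primitive integral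
binary quadratic form proportional to its fixed point form; all such near returns give the same `v`, it
is definite and its discriminant `D` satisfies `-4N ≤ D < 0`. There is an odd prime `p < 16 N` inert for
`D`. Let `p^J` be the first power of `p` larger than `4N`. The Hecke relations for `T_p` give a point
`w = (a z + b) / d` with `a d = p^J` or `p^(J+1)`, `(a, b; 0, d)` primitive, with
`|U z| ≤ (2 (p + 1))^(J + 1) |U w|` (if the eigenvalue is at most `p + 1` one walks away from `z` on the
tree, at each step to a neighbour or to a second neighbour which is not too small; if it is larger, `U`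
increases along the tree). A near return of `w` of determinant `n ≤ N` is conjugated by `(a, b; 0, d)`
to an integral near return of `z` of determinant `n (a d)^2`, whose form is again proportional to `v`;
as `p` is inert for `v` and `(a, b; 0, d)` is primitive of determinant `p^m > 4 N`, the discriminant
of the near return is `0` or at most `- p^(2m)`, so the near return is scalar.
-/

set_option autoImplicit false
open MeasureTheory UpperHalfPlane

namespace Pool.Agent.Results.MP_8fded1_nt.NoShortHeckeReturns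

/-- `U` is an `L^2`-normalised Hecke-Maass cusp form for `SL_2(Z)` with Laplace eigenvalue
`1/4 + T^2` (the clauses are those of the frozen statement of the problem). -/
def IsHeckeMaass (U : ℂ → ℂ) (T : ℝ) : Prop :=
  ContDiffOn ℝ 2 U {z : ℂ | 0 < z.im} ∧
  (∀ z : ℂ, 0 < z.im → U (z + 1) = U z ∧ U (-z⁻¹) = U z) ∧
  (∀ z : ℂ, 0 < z.im →
    -((z.im : ℂ)) ^ 2 *
      (deriv (deriv (fun t : ℝ => U (z + (t : ℂ)))) 0 +
        deriv (deriv (fun t : ℝ => U (z + (t : ℂ) * Complex.I))) 0)
      = (1 / 4 + (T : ℂ) ^ 2) * U z) ∧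
  (∀ y : ℝ, 0 < y →
    intervalIntegral (fun x : ℝ => U ((x : ℂ) + (y : ℂ) * Complex.I)) 0 1 volume = 0) ∧
  (∫ z in {z : ℂ | 0 < z.im ∧ |z.re| ≤ 1 / 2 ∧ 1 ≤ ‖z‖}, ‖U z‖ ^ 2 / z.im ^ 2) = 1 ∧
  (∀ n : ℕ, 1 ≤ n → ∃ c : ℂ, ∀ z : ℂ, 0 < z.im →
    ∑ d ∈ n.divisors, ∑ b ∈ Finset.range d,
        U ((((n / d : ℕ) : ℂ) * z + (b : ℂ)) / (d : ℂ)) = c * U z)

/-- `w` has no Hecke return of determinant at most `N` at distance less than `δ`: for every integral
matrix `(A, B; C, D)` with `0 < AD - BC ≤ N` which is not scalar, the point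
`w' = (A w + B) / (C w + D)` has hyperbolic distance at least `δ` from `w`. -/
def NoHeckeReturn (N : ℕ) (δ : ℝ) (w : ℍ) : Prop :=
  ∀ A B C D : ℤ, 0 < A * D - B * C → A * D - B * C ≤ N → ¬ (B = 0 ∧ C = 0 ∧ A = D) →
    ∀ w' : ℍ, (w' : ℂ) * (C * (w : ℂ) + D) = A * (w : ℂ) + B → δ ≤ dist w' w

/-- **Large values without short Hecke returns.** Let `U` be a Hecke-Maass cusp form, `R ≥ 1`,
`|z| ≤ R`, `Im z ≥ 1 / R` and `N ≥ 1`. There is a point `w = (a z + b) / d` with
`a d ≤ 2^10 N^3`, `0 ≤ b < d`, such that `|U z| ≤ 2^30 N^9 |U w|` and `w` has no Hecke return of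
determinant at most `N` at distance less than `1 / (2^15 R^2 N^4)`. -/
theorem result {U : ℂ → ℂ} {T : ℝ} (hU : IsHeckeMaass U T) {R : ℝ} (hR : 1 ≤ R) {z : ℍ}
    (hz : ‖(z : ℂ)‖ ≤ R) (hz' : 1 / R ≤ z.im) {N : ℕ} (hN : 1 ≤ N) :
    ∃ (w : ℍ) (a b d : ℕ), 0 < a ∧ 0 < d ∧ b < d ∧ a * d ≤ 2 ^ 10 * N ^ 3 ∧
      (w : ℂ) = ((a : ℂ) * (z : ℂ) + (b : ℂ)) / (d : ℂ) ∧
      ‖U (z : ℂ)‖ ≤ 2 ^ 30 * (N : ℝ) ^ 9 * ‖U (w : ℂ)‖ ∧
      NoHeckeReturn N (1 / (2 ^ 15 * R ^ 2 * (N : ℝ) ^ 4)) w :=
  Pool.Agent.N661.SN.generic ⟨fun z hz => (hU.2.1 z hz).1, hU.2.2.2.2.2⟩ hR hz hz' hN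

end Pool.Agent.Results.MP_8fded1_nt.NoShortHeckeReturns
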