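import Pool.Agent.N661.SN.Top

/-!
# Large values of Hecke-Maass cusp forms occur at many separated points (MP_8fded1_nt)

Let `K` be a compact subset of the upper half plane and `k` a natural number. There are a compact
set `L`, a radius `r > 0` and a constant `C` such that for every Hecke-Maass cusp form `U` for
`SL_2(Z)` and every point `z` of `K` there are `k` points `w_1, …, w_k` of `L` whose images in the
modular surface have mutual hyperbolic distances at least `r`, with `|U z| ≤ C |U (w_i)|` for all `i`.
The constants do not depend on the form, in particular not on the spectral parameter.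

So the sup norm over `K` cannot be large only near `k - 1` points, even if these points depend on the
form: if `|U| ≤ B` on `L` outside the modular translates of `k - 1` discs of radius `r / 2`, then
`|U| ≤ C B` on `K`. In the sup-norm problem one may discard neighbourhoods of any fixed number of points
(CM points of small discriminant, or points chosen in terms of `U`). The starting file
`EllipticPointIsHarmless` is the case of the single fixed point `i`.

Proof. Let `p` be a prime. By the Hecke relations for `T_p` and `T_p²`, `|U z| ≤ (p + 2) |U w|` for one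
of the Hecke neighbours `w = (a z + b) / d` of `z` of order `p` or `p²` (`a d = p` or `p²`, `(a, b; 0, d)`
primitive). Call `p` good for `z₀` if every integral matrix which fixes `z₀` and has determinant
divisible by `p` is divisible by `p`. All primes are good if `z₀` is not a CM point, and the odd primes
which are inert for the quadratic form of `z₀` are good otherwise; there are infinitely many by Dirichlet's
theorem. The Hecke neighbours of `z₀` for two different good primes are never equivalent under `SL_2(Z)`.
Take `k` good primes for `z₀`; by proper discontinuity and as the maps `z ↦ (a z + b) / d` are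
isometries, the neighbours of every `z` near `z₀` for different primes are separated. Then cover `K`.
-/

set_option autoImplicit false
open MeasureTheory UpperHalfPlane
open scoped MatrixGroups

namespace Pool.Agent.Results.MP_8fded1_nt.SeparatedLargeValues

/-- `U` is an `L^2`-normalised Hecke-Maass cusp form for `SL_2(Z)` with Laplace eigenvalue
`1/4 + T^2` (the clauses are those of the frozen statement of the problem). -/
def IsHeckeMaass (U : ℂ → ℂ) (T : ℝ) : Prop :=
  ContDiffOn ℝ 2 U {z : ℂ | 0 < z.im} ∧
  (∀ z : ℂ, 0 < z.im → U (z + 1) = U z ∧ U (-z⁻¹) = U z) ∧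
  (∀ z : ℂ, 0 < z.im →
    -((z.im : ℂ)) ^ 2 *
      (deriv (deriv (fun t : ℝ => U (z + (t : ℂ)))) 0 +
        deriv (deriv (fun t : ℝ => U (z + (t : ℂ) * Complex.I))) 0)
      = (1 / 4 + (T : ℂ) ^ 2) * U z) ∧
  (∀ y : ℝ, 0 < y →
    intervalIntegral (fun x : ℝ => U ((x : ℂ) + (y : ℂ) * Complex.I)) 0 1 volume = 0) ∧
  (∫ z in {z : ℂ | 0 < z.im ∧ |z.re| ≤ 1 / 2 ∧ 1 ≤ ‖z‖}, ‖U z‖ ^ 2 / z.im ^ 2) = 1 ∧
  (∀ n : ℕ, 1 ≤ n → ∃ c : ℂ, ∀ z : ℂ, 0 < z.im →
    ∑ d ∈ n.divisors, ∑ b ∈ Finset.range d,
        U ((((n / d : ℕ) : ℂ) * z + (b : ℂ)) / (d : ℂ)) = c * U z)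

/-- **Large values occur at `k` separated points.** For every compact set `K` in the upper half
plane `ℍ` and every `k` there are a compact set `L ⊆ ℍ` and constants `r, C > 0` such that for every
Hecke-Maass cusp form `U` and every `z ∈ K` there are points `w 0, …, w (k - 1) ∈ L` with
`|U z| ≤ C |U (w i)|` for all `i`, and `r ≤ dist (g • w i) (w j)` for all `i ≠ j` and all
`g ∈ SL_2(Z)` (`dist` is the hyperbolic distance). -/
theorem result (k : ℕ) (K : Set ℍ) (hK : IsCompact K) :
    ∃ (L : Set ℍ) (r C : ℝ), IsCompact L ∧ 0 < r ∧ 0 < C ∧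
      ∀ (U : ℂ → ℂ) (T : ℝ), IsHeckeMaass U T → ∀ z ∈ K, ∃ w : Fin k → ℍ,
        (∀ i, w i ∈ L ∧ ‖U (z : ℂ)‖ ≤ C * ‖U (w i : ℂ)‖) ∧
        ∀ i j, i ≠ j → ∀ g : SL(2, ℤ), r ≤ dist (g • w i) (w j) := by
  obtain ⟨L, r, C, hL, hr, hC, H⟩ := Pool.Agent.N661.SN.sep_compact k hK
  refine ⟨L, r, C, hL, hr, hC, fun U T hU z hz => H U ⟨fun z hz => ?_, hU.2.2.2.2.2⟩ z hz⟩
  exact (hU.2.1 z hz).1

end Pool.Agent.Results.MP_8fded1_nt.SeparatedLargeValues
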